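import Pool.Agent.Lib.MP_b9289b_nt.Mg.G009
import Pool.Agent.Lib.MP_b9289b_nt.Mg.G008

/-! (O02) Compactness, closures, corners. -/

open UpperHalfPlane Metric Set Filter Topology MatrixGroups
open scoped ComplexConjugate

noncomputable section

namespace Pool.Agent.Lib.MP_b9289b_nt

variable {A : ℝ}

private lemma o2_B (hA : OkA A) : A * (1 / A) = 1 ∧ A < 1 / A ∧ 1 / A < 2 * A ∧ 0 < 1 / A := by
  have h0 := hA.pos
  have h1 := hA.lt_one
  have h2 := hA.half
  refine ⟨by field_simp, ?_, ?_, by positivity⟩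
  · rw [lt_div_iff₀ h0]; nlinarith
  · rw [div_lt_iff₀ h0]; nlinarith

private lemma o2_kappa (hA : OkA A) : A ^ 2 + (1 / A - A) ^ 2 < 1 := by
  obtain ⟨hB1, hB2, hB3, hB4⟩ := o2_B hA
  have h0 := hA.pos
  have h1 := hA.lt_one
  have h2 := hA.half
  have h3 : (1 / A) ^ 2 * A ^ 2 = 1 := by
    rw [← mul_pow, mul_comm (1 / A) A, hB1, one_pow]
  have h4 : A ^ 2 < 1 := by nlinarith
  have h5 : (A ^ 2 + (1 / A - A) ^ 2) * A ^ 2 < 1 * A ^ 2 := by
    have : (A ^ 2 + (1 / A - A) ^ 2) * A ^ 2 = 2 * (A ^ 2) ^ 2 - 2 * A ^ 2 * (A * (1 / A)) +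
        (1 / A) ^ 2 * A ^ 2 := by ring
    rw [this, hB1, h3]
    nlinarith
  exact lt_of_mul_lt_mul_right h5 (by positivity)

private lemma o2_mem {n : ℝ × ℝ × ℝ} : n ∈ walls A ↔ n = (1, 0, A) ∨ n = (-1, 0, A) ∨
    n = (0, 1, A) ∨ n = (0, -1, A) ∨ n = (1, 1, 1 / A) ∨ n = (1, -1, 1 / A) ∨
    n = (-1, 1, 1 / A) ∨ n = (-1, -1, 1 / A) := by
  simp only [walls, Finset.mem_insert, Finset.mem_singleton]

private lemma o2_w (ζ : ℂ) : 0 < 1 + Complex.normSq ζ := by
  have := Complex.normSq_nonneg ζ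
  linarith

private lemma o2_ineq {ζ : ℂ} (hζ : ζ ∈ octC A) :
    2 * ζ.re ≤ A * (1 + Complex.normSq ζ) ∧ -(2 * ζ.re) ≤ A * (1 + Complex.normSq ζ) ∧
    2 * ζ.im ≤ A * (1 + Complex.normSq ζ) ∧ -(2 * ζ.im) ≤ A * (1 + Complex.normSq ζ) ∧
    2 * ζ.re + 2 * ζ.im ≤ 1 / A * (1 + Complex.normSq ζ) ∧
    2 * ζ.re - 2 * ζ.im ≤ 1 / A * (1 + Complex.normSq ζ) ∧
    -(2 * ζ.re) + 2 * ζ.im ≤ 1 / A * (1 + Complex.normSq ζ) ∧
    -(2 * ζ.re) - 2 * ζ.im ≤ 1 / A * (1 + Complex.normSq ζ) := by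
  have e1 := hζ.2 (1, 0, A) (o2_mem.2 (by simp))
  have e2 := hζ.2 (-1, 0, A) (o2_mem.2 (by simp))
  have e3 := hζ.2 (0, 1, A) (o2_mem.2 (by simp))
  have e4 := hζ.2 (0, -1, A) (o2_mem.2 (by simp))
  have e5 := hζ.2 (1, 1, 1 / A) (o2_mem.2 (by simp))
  have e6 := hζ.2 (1, -1, 1 / A) (o2_mem.2 (by simp))
  have e7 := hζ.2 (-1, 1, 1 / A) (o2_mem.2 (by simp))
  have e8 := hζ.2 (-1, -1, 1 / A) (o2_mem.2 (by simp))
  simp only [lin] at e1 e2 e3 e4 e5 e6 e7 e8
  refine ⟨?_, ?_, ?_, ?_, ?_, ?_, ?_, ?_⟩ <;> linarith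

private lemma o2_quad {a b x y : ℝ} (ha : 0 ≤ x) (hb : 0 ≤ y) (h1 : x ≤ a) (h2 : y ≤ a)
    (h3 : x + y ≤ b) (h4 : a ≤ b) : x ^ 2 + y ^ 2 ≤ a ^ 2 + (b - a) ^ 2 := by
  rcases le_total y (b - a) with h | h
  · have e1 : x ^ 2 ≤ a ^ 2 := by nlinarith
    have e2 : y ^ 2 ≤ (b - a) ^ 2 := by nlinarith
    linarith
  · have e1 : x ^ 2 ≤ (b - y) ^ 2 := by nlinarith
    have e2 : 0 ≤ (a - y) * (y + a - b) := mul_nonneg (by linarith) (by linarith)
    nlinarith

/-- The closed octagon is inside a smaller disc. PROOF: for `k = 2 |ζ| / (1 + |ζ|²)`: `k² = k₁² + k₂² ≤ 2A² - 2 + 1/A² =: κ < 1` (if `a = max |kᵢ| ≤ A`, `b = min |kᵢ|`, `a + b ≤ 1/A`, then `a² + b² ≤ A² + (1/A - A)²`, e.g. from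
`(A - a) ≥ 0`, `(1/A - a - b) ≥ 0`, `a ≥ b`, `2A > 1/A`). So `2 |ζ| ≤ √κ (1 + |ζ|²)` and `|ζ| ≤ √κ` (as `1 + |ζ|² ≤ 2`). -/
lemma exists_bound_octC (hA : OkA A) : ∃ ρ : ℝ, ρ < 1 ∧ ∀ ζ ∈ octC A, ‖ζ‖ ≤ ρ := by
  have hk := o2_kappa hA
  obtain ⟨hB1, hB2, hB3, hB4⟩ := o2_B hA
  refine ⟨√(A ^ 2 + (1 / A - A) ^ 2), ?_, fun ζ hζ => ?_⟩
  · rw [Real.sqrt_lt' one_pos]
    linarith
  · apply Real.le_sqrt_of_sq_le
    obtain ⟨e1, e2, e3, e4, e5, e6, e7, e8⟩ := o2_ineq hζ
    have hw := o2_w ζ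
    have h1 : |2 * ζ.re| ≤ A * (1 + Complex.normSq ζ) := abs_le.2 ⟨by linarith, by linarith⟩
    have h2 : |2 * ζ.im| ≤ A * (1 + Complex.normSq ζ) := abs_le.2 ⟨by linarith, by linarith⟩
    have h3 : |2 * ζ.re| + |2 * ζ.im| ≤ 1 / A * (1 + Complex.normSq ζ) := by
      rcases abs_cases (2 * ζ.re) with ⟨h, _⟩ | ⟨h, _⟩ <;>
      rcases abs_cases (2 * ζ.im) with ⟨h', _⟩ | ⟨h', _⟩ <;> rw [h, h'] <;> linarith
    have h4 : A * (1 + Complex.normSq ζ) ≤ 1 / A * (1 + Complex.normSq ζ) :=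
      mul_le_mul_of_nonneg_right hB2.le hw.le
    have h5 := o2_quad (abs_nonneg _) (abs_nonneg _) h1 h2 h3 h4
    rw [sq_abs, sq_abs] at h5
    have h6 : Complex.normSq ζ = ‖ζ‖ ^ 2 := Complex.normSq_eq_norm_sq ζ
    have h7 : ‖ζ‖ ^ 2 = ζ.re ^ 2 + ζ.im ^ 2 := by
      rw [← h6, Complex.normSq_apply]; ring
    have h8 : Complex.normSq ζ ≤ 1 := by
      rw [h6]
      have := hζ.1
      have := norm_nonneg ζ
      nlinarith
    have h9 : (1 + Complex.normSq ζ) ^ 2 ≤ 4 := by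
      have := Complex.normSq_nonneg ζ
      nlinarith
    have h10 : (A * (1 + Complex.normSq ζ)) ^ 2 +
        (1 / A * (1 + Complex.normSq ζ) - A * (1 + Complex.normSq ζ)) ^ 2 =
        (A ^ 2 + (1 / A - A) ^ 2) * (1 + Complex.normSq ζ) ^ 2 := by ring
    rw [h10] at h5
    have h11 : (A ^ 2 + (1 / A - A) ^ 2) * (1 + Complex.normSq ζ) ^ 2 ≤
        (A ^ 2 + (1 / A - A) ^ 2) * 4 := mul_le_mul_of_nonneg_left h9 (by positivity)
    rw [h7]
    nlinarith

private lemma o2_continuous_lin (n : ℝ × ℝ × ℝ) : Continuous (lin n) := by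
  unfold lin
  exact (((continuous_const.mul Complex.continuous_re).add
    (continuous_const.mul Complex.continuous_im)).sub
    (continuous_const.mul (continuous_const.add Complex.continuous_normSq)))

lemma isCompact_octC (hA : OkA A) : IsCompact (octC A) := by
  obtain ⟨ρ, hρ, h⟩ := exists_bound_octC hA
  have e : octC A = closedBall 0 ρ ∩ ⋂ n ∈ walls A, {ζ | lin n ζ ≤ 0} := by
    ext ζ
    simp only [mem_inter_iff, mem_closedBall, dist_zero_right, mem_iInter, mem_ofPred_eq]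
    constructor
    · intro hζ
      exact ⟨h ζ hζ, hζ.2⟩
    · intro hζ
      exact ⟨hζ.1.trans_lt hρ, hζ.2⟩
  rw [e]
  refine (isCompact_closedBall _ _).inter_right ?_
  exact isClosed_biInter fun n _ => isClosed_le (o2_continuous_lin n) continuous_const

private lemma o2_tendsto (ζ : ℂ) : Tendsto (fun t : ℝ => (t : ℂ) * ζ) (𝓝[<] 1) (𝓝 ζ) := by
  have h : Continuous fun t : ℝ => (t : ℂ) * ζ := by fun_prop
  have h1 := (h.tendsto 1).mono_left (nhdsWithin_le_nhds (s := Iio (1 : ℝ)))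
  simpa using h1

private lemma o2_eventually : ∀ᶠ t : ℝ in 𝓝[<] 1, 0 ≤ t ∧ t < 1 := by
  filter_upwards [self_mem_nhdsWithin, mem_nhdsWithin_of_mem_nhds (lt_mem_nhds zero_lt_one)]
    with t h1 h2
  exact ⟨le_of_lt h2, h1⟩

/-- PROOF: `smul_mem_octD`, `t → 1`. -/
lemma closure_octD (hA : OkA A) : closure (octD A) = octC A := by
  apply Subset.antisymm
  · exact closure_minimal (octD_subset A) (isCompact_octC hA).isClosed
  · intro ζ hζ
    refine mem_closure_of_tendsto (o2_tendsto ζ) ?_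
    filter_upwards [o2_eventually] with t ht
    exact smul_mem_octD hA hζ ht.1 ht.2

lemma isOpen_oct (hA : OkA A) : IsOpen (oct A) :=
  (star_octD hA).isOpen.preimage continuous_cay

private lemma o2_toH_at {ζ : ℂ} (h : ‖ζ‖ < 1) : ContinuousAt toH ζ :=
  continuousOn_toH.continuousAt (isOpen_ball.mem_nhds (by simpa using h))

lemma closure_oct (hA : OkA A) : closure (oct A) = {z | cay z ∈ octC A} := by
  apply Subset.antisymm
  · refine closure_minimal (fun z hz => octD_subset A hz) ?_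
    exact (isCompact_octC hA).isClosed.preimage continuous_cay
  · intro z hz
    have h1 : Tendsto (fun t : ℝ => toH ((t : ℂ) * cay z)) (𝓝[<] 1) (𝓝 (toH (cay z))) :=
      (o2_toH_at (norm_cay_lt z)).tendsto.comp (o2_tendsto (cay z))
    rw [toH_cay] at h1
    refine mem_closure_of_tendsto h1 ?_
    filter_upwards [o2_eventually] with t ht
    have h2 := smul_mem_octD hA hz ht.1 ht.2
    change cay (toH ((t : ℂ) * cay z)) ∈ octD A
    rw [cay_toH h2.1]
    exact h2

private lemma o2_image_oct (S : Set ℂ) (hS : ∀ ζ ∈ S, ‖ζ‖ < 1) :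
    {z | cay z ∈ S} = toH '' S := by
  ext z
  constructor
  · intro h
    exact ⟨cay z, h, toH_cay z⟩
  · rintro ⟨ζ, hζ, rfl⟩
    change cay (toH ζ) ∈ S
    rw [cay_toH (hS ζ hζ)]
    exact hζ

lemma isCompact_closure_oct (hA : OkA A) : IsCompact (closure (oct A)) := by
  rw [closure_oct hA, o2_image_oct (octC A) fun ζ hζ => hζ.1]
  exact (isCompact_octC hA).image_of_continuousOn
    (continuousOn_toH.mono fun ζ hζ => by simpa using hζ.1)

lemma isPreconnected_oct (hA : OkA A) : IsPreconnected (oct A) := by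
  have h : oct A = toH '' octD A := o2_image_oct (octD A) fun ζ hζ => hζ.1
  rw [h]
  have hs := star_octD hA
  have h1 : StarConvex ℝ (0 : ℂ) (octD A) := by
    intro y hy a b ha hb hab
    have := hs.star y hy b hb (by linarith)
    simpa using this
  exact (h1.isPathConnected hs.zero_mem).isConnected.isPreconnected.image _
    (continuousOn_toH.mono fun ζ hζ => by simpa using hζ.1)

private lemma o2_corner (hA : OkA A) : ∃ s : ℝ, 0 < s ∧ s ^ 2 = 1 - A ^ 2 - (1 / A - A) ^ 2 ∧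
    (corner A).re = A / (1 + s) ∧ (corner A).im = (1 / A - A) / (1 + s) ∧
    1 + Complex.normSq (corner A) = 2 / (1 + s) := by
  have hk := o2_kappa hA
  have h1 : 0 < 1 - A ^ 2 - (1 / A - A) ^ 2 := by linarith
  have hs := Real.sqrt_pos.2 h1
  have hs2 := Real.sq_sqrt h1.le
  have e1 : (corner A).re = A / (1 + √(1 - A ^ 2 - (1 / A - A) ^ 2)) := by
    unfold corner
    rw [Complex.div_ofReal_re]
  have e2 : (corner A).im = (1 / A - A) / (1 + √(1 - A ^ 2 - (1 / A - A) ^ 2)) := by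
    unfold corner
    rw [Complex.div_ofReal_im]
  refine ⟨√(1 - A ^ 2 - (1 / A - A) ^ 2), hs, hs2, e1, e2, ?_⟩
  rw [Complex.normSq_apply, e1, e2]
  generalize √(1 - A ^ 2 - (1 / A - A) ^ 2) = s at *
  have h2 : (1 + s) ≠ 0 := by positivity
  have h3 : A / (1 + s) * (A / (1 + s)) + (1 / A - A) / (1 + s) * ((1 / A - A) / (1 + s)) =
      (A ^ 2 + (1 / A - A) ^ 2) / (1 + s) ^ 2 := by
    rw [div_mul_div_comm, div_mul_div_comm, ← add_div]
    congr 1 <;> ring
  have h4 : A ^ 2 + (1 / A - A) ^ 2 = 1 - s ^ 2 := by linarith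
  rw [h3, h4]
  field_simp
  ring

/-- The corner. `2 re ζ = A (1 + |ζ|²)`, `2 im ζ = (1/A - A) (1 + |ζ|²)`: if `v = (A, 1/A - A)`, `|v|² < 1`, `ζ = v / (1 + √(1 - |v|²))` then `1 + |ζ|² = 2 / (1 + √(1 - |v|²))`. -/
lemma corner_re (hA : OkA A) : 2 * (corner A).re = A * (1 + Complex.normSq (corner A)) := by
  obtain ⟨s, hs, hs2, e1, e2, e3⟩ := o2_corner hA
  rw [e3, e1]
  ring

lemma corner_im (hA : OkA A) :
    2 * (corner A).im = (1 / A - A) * (1 + Complex.normSq (corner A)) := by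
  obtain ⟨s, hs, hs2, e1, e2, e3⟩ := o2_corner hA
  rw [e3, e2]
  ring

private lemma o2_norm_corner (hA : OkA A) : ‖corner A‖ < 1 := by
  obtain ⟨s, hs, hs2, e1, e2, e3⟩ := o2_corner hA
  have h1 : (2 : ℝ) / (1 + s) < 2 := by
    rw [div_lt_iff₀ (by linarith)]
    linarith
  have h2 : Complex.normSq (corner A) < 1 := by linarith
  rw [Complex.normSq_eq_norm_sq] at h2
  have := norm_nonneg (corner A)
  nlinarith

lemma isCorner_corner (hA : OkA A) : IsCorner A (corner A) := by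
  obtain ⟨hB1, hB2, hB3, hB4⟩ := o2_B hA
  have h0 := hA.pos
  have e1 := corner_re hA
  have e2 := corner_im hA
  have hw := o2_w (corner A)
  have f1 : 0 < A * (1 + Complex.normSq (corner A)) := mul_pos h0 hw
  have f2 : A * (1 + Complex.normSq (corner A)) < 1 / A * (1 + Complex.normSq (corner A)) :=
    mul_lt_mul_of_pos_right hB2 hw
  have f3 : 1 / A * (1 + Complex.normSq (corner A)) <
      2 * (A * (1 + Complex.normSq (corner A))) := by
    have := mul_lt_mul_of_pos_right hB3 hw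
    linarith
  refine ⟨⟨o2_norm_corner hA, fun n hn => ?_⟩, (1, 0, A), o2_mem.2 (by simp), (1, 1, 1 / A),
    o2_mem.2 (by simp), by simp, ?_, ?_⟩
  · rcases o2_mem.1 hn with h | h | h | h | h | h | h | h <;> subst h <;> simp only [lin] <;>
      linarith
  · simp only [lin]
    linarith
  · simp only [lin]
    linarith

/-- Freeness: the corner is not on the axes of symmetry. PROOF: `0 < 1/A - A < A`. -/
lemma corner_im_pos (hA : OkA A) : 0 < (corner A).im := by
  obtain ⟨hB1, hB2, hB3, hB4⟩ := o2_B hA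
  obtain ⟨s, hs, hs2, e1, e2, e3⟩ := o2_corner hA
  rw [e2]
  exact div_pos (by linarith) (by linarith)

lemma corner_im_lt_re (hA : OkA A) : (corner A).im < (corner A).re := by
  obtain ⟨hB1, hB2, hB3, hB4⟩ := o2_B hA
  obtain ⟨s, hs, hs2, e1, e2, e3⟩ := o2_corner hA
  rw [e2, e1]
  exact div_lt_div_of_pos_right (by linarith) (by linarith)

private lemma o2_uniq {ζ ξ : ℂ} {k l : ℝ} (h1 : ‖ζ‖ < 1) (h2 : ‖ξ‖ < 1)
    (e1 : 2 * ζ.re = k * (1 + Complex.normSq ζ)) (e2 : 2 * ζ.im = l * (1 + Complex.normSq ζ))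
    (e3 : 2 * ξ.re = k * (1 + Complex.normSq ξ)) (e4 : 2 * ξ.im = l * (1 + Complex.normSq ξ)) :
    ζ = ξ := by
  have n1 : Complex.normSq ζ < 1 := by
    rw [Complex.normSq_eq_norm_sq]
    have := norm_nonneg ζ
    nlinarith
  have n2 : Complex.normSq ξ < 1 := by
    rw [Complex.normSq_eq_norm_sq]
    have := norm_nonneg ξ
    nlinarith
  have m1 := Complex.normSq_nonneg ζ
  have m2 := Complex.normSq_nonneg ξ
  have f1 : 4 * Complex.normSq ζ = (k ^ 2 + l ^ 2) * (1 + Complex.normSq ζ) ^ 2 := by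
    have : 4 * Complex.normSq ζ = (2 * ζ.re) ^ 2 + (2 * ζ.im) ^ 2 := by
      rw [Complex.normSq_apply]; ring
    rw [this, e1, e2]; ring
  have f2 : 4 * Complex.normSq ξ = (k ^ 2 + l ^ 2) * (1 + Complex.normSq ξ) ^ 2 := by
    have : 4 * Complex.normSq ξ = (2 * ξ.re) ^ 2 + (2 * ξ.im) ^ 2 := by
      rw [Complex.normSq_apply]; ring
    rw [this, e3, e4]; ring
  have hw : Complex.normSq ζ = Complex.normSq ξ := by
    generalize Complex.normSq ζ = a at *
    generalize Complex.normSq ξ = b at *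
    have g1 : 4 * a * (1 + b) ^ 2 = 4 * b * (1 + a) ^ 2 := by
      rw [f1, f2]; ring
    have g2 : (a - b) * (1 - a * b) = 0 := by nlinarith
    rcases mul_eq_zero.1 g2 with h | h
    · linarith
    · exfalso
      nlinarith
  apply Complex.ext
  · have : 2 * ζ.re = 2 * ξ.re := by rw [e1, e3, hw]
    linarith
  · have : 2 * ζ.im = 2 * ξ.im := by rw [e2, e4, hw]
    linarith

private lemma o2_cases (hA : OkA A) {ζ : ℂ} (h : IsCorner A ζ) : ∃ a b : ℝ,
    2 * ζ.re = a * (1 + Complex.normSq ζ) ∧ 2 * ζ.im = b * (1 + Complex.normSq ζ) ∧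
    ((a = A ∧ b = 1 / A - A) ∨ (a = A ∧ b = -(1 / A - A)) ∨ (a = -A ∧ b = 1 / A - A) ∨
    (a = -A ∧ b = -(1 / A - A)) ∨ (a = 1 / A - A ∧ b = A) ∨ (a = 1 / A - A ∧ b = -A) ∨
    (a = -(1 / A - A) ∧ b = A) ∨ (a = -(1 / A - A) ∧ b = -A)) := by
  have h0 := hA.pos
  obtain ⟨hB1, hB2, hB3, hB4⟩ := o2_B hA
  have hw := o2_w ζ
  obtain ⟨hζ, n, hn, m, hm, hne, h1, h2⟩ := h
  have f1 : 0 < A * (1 + Complex.normSq ζ) := mul_pos h0 hw
  have f2 : A * (1 + Complex.normSq ζ) < 1 / A * (1 + Complex.normSq ζ) :=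
    mul_lt_mul_of_pos_right hB2 hw
  have f3 : 1 / A * (1 + Complex.normSq ζ) < 2 * (A * (1 + Complex.normSq ζ)) := by
    have := mul_lt_mul_of_pos_right hB3 hw
    linarith
  obtain ⟨e1, e2, e3, e4, e5, e6, e7, e8⟩ := o2_ineq hζ
  suffices H : (2 * ζ.re = A * (1 + Complex.normSq ζ) ∧
      2 * ζ.im = (1 / A - A) * (1 + Complex.normSq ζ)) ∨
      (2 * ζ.re = A * (1 + Complex.normSq ζ) ∧
      2 * ζ.im = -(1 / A - A) * (1 + Complex.normSq ζ)) ∨
      (2 * ζ.re = -A * (1 + Complex.normSq ζ) ∧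
      2 * ζ.im = (1 / A - A) * (1 + Complex.normSq ζ)) ∨
      (2 * ζ.re = -A * (1 + Complex.normSq ζ) ∧
      2 * ζ.im = -(1 / A - A) * (1 + Complex.normSq ζ)) ∨
      (2 * ζ.re = (1 / A - A) * (1 + Complex.normSq ζ) ∧
      2 * ζ.im = A * (1 + Complex.normSq ζ)) ∨
      (2 * ζ.re = (1 / A - A) * (1 + Complex.normSq ζ) ∧
      2 * ζ.im = -A * (1 + Complex.normSq ζ)) ∨
      (2 * ζ.re = -(1 / A - A) * (1 + Complex.normSq ζ) ∧
      2 * ζ.im = A * (1 + Complex.normSq ζ)) ∨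
      (2 * ζ.re = -(1 / A - A) * (1 + Complex.normSq ζ) ∧
      2 * ζ.im = -A * (1 + Complex.normSq ζ)) by
    rcases H with H | H | H | H | H | H | H | H <;> refine ⟨_, _, H.1, H.2, ?_⟩ <;> simp
  rcases o2_mem.1 hn with h | h | h | h | h | h | h | h <;>
  rcases o2_mem.1 hm with h' | h' | h' | h' | h' | h' | h' | h' <;> subst h <;> subst h' <;>
  first
  | exact absurd rfl hne
  | (exfalso; simp only [lin] at h1 h2; linarith)
  | (simp only [lin] at h1 h2; left; constructor <;> linarith)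
  | (simp only [lin] at h1 h2; right; left; constructor <;> linarith)
  | (simp only [lin] at h1 h2; right; right; left; constructor <;> linarith)
  | (simp only [lin] at h1 h2; right; right; right; left; constructor <;> linarith)
  | (simp only [lin] at h1 h2; right; right; right; right; left; constructor <;> linarith)
  | (simp only [lin] at h1 h2; right; right; right; right; right; left; constructor <;> linarith)
  | (simp only [lin] at h1 h2; right; right; right; right; right; right; left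
     constructor <;> linarith)
  | (simp only [lin] at h1 h2; right; right; right; right; right; right; right
     constructor <;> linarith)

/-- All corners. PROOF: two different active walls are orthogonal (`BB_walls_orth`), so one is of the type `(±1,0,A)` or `(0,±1,A)` and the other one `(±1,±1,1/A)` with a common sign; this determines the Klein coordinates `p/w, q/w`
(`p = 2 re ζ`, `q = 2 im ζ`, `w = 1 + |ζ|²`) as `(±A, ±(1/A-A))` or `(±(1/A-A), ±A)`, and `ζ` is determined by its Klein coordinates in the disc. -/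
lemma IsCorner.eq (hA : OkA A) {ζ : ℂ} (h : IsCorner A ζ) :
    ∃ k : ℕ, ζ = Complex.I ^ k * corner A ∨ ζ = Complex.I ^ k * conj (corner A) := by
  obtain ⟨a, b, ha, hb, hab⟩ := o2_cases hA h
  have hn := o2_norm_corner hA
  have e1 := corner_re hA
  have e2 := corner_im hA
  have hz := h.1.1
  rcases hab with ⟨rfl, rfl⟩ | ⟨rfl, rfl⟩ | ⟨rfl, rfl⟩ | ⟨rfl, rfl⟩ | ⟨rfl, rfl⟩ | ⟨rfl, rfl⟩ |
    ⟨rfl, rfl⟩ | ⟨rfl, rfl⟩
  · refine ⟨0, Or.inl ?_⟩
    refine o2_uniq hz (by simpa using hn) ha hb ?_ ?_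
    · simp only [pow_zero, one_mul]
      linarith
    · simp only [pow_zero, one_mul]
      linarith
  · refine ⟨0, Or.inr ?_⟩
    refine o2_uniq hz (by simpa using hn) ha hb ?_ ?_
    · simpa using e1
    · simp only [pow_zero, one_mul, Complex.conj_im, Complex.normSq_conj]
      linarith
  · refine ⟨2, Or.inr ?_⟩
    refine o2_uniq hz (by simpa using hn) ha hb ?_ ?_
    · simp only [Complex.I_sq, neg_mul, one_mul, Complex.neg_re, Complex.conj_re,
        Complex.normSq_neg, Complex.normSq_conj]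
      linarith
    · simp only [Complex.I_sq, neg_mul, one_mul, Complex.neg_im, Complex.conj_im,
        Complex.normSq_neg, Complex.normSq_conj]
      linarith
  · refine ⟨2, Or.inl ?_⟩
    refine o2_uniq hz (by simpa using hn) ha hb ?_ ?_
    · simp only [Complex.I_sq, neg_mul, one_mul, Complex.neg_re, Complex.normSq_neg]
      linarith
    · simp only [Complex.I_sq, neg_mul, one_mul, Complex.neg_im, Complex.normSq_neg]
      linarith
  · refine ⟨1, Or.inr ?_⟩
    refine o2_uniq hz (by simpa using hn) ha hb ?_ ?_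
    · simp only [pow_one, Complex.I_mul_re, Complex.conj_im, map_mul, Complex.normSq_I, one_mul,
        Complex.normSq_conj]
      linarith
    · simp only [pow_one, Complex.I_mul_im, Complex.conj_re, map_mul, Complex.normSq_I, one_mul,
        Complex.normSq_conj]
      linarith
  · refine ⟨3, Or.inl ?_⟩
    refine o2_uniq hz (by simpa using hn) ha hb ?_ ?_
    · simp only [Complex.I_pow_three, neg_mul, Complex.neg_re, Complex.normSq_neg,
        Complex.I_mul_re, map_mul, Complex.normSq_I, one_mul]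
      linarith
    · simp only [Complex.I_pow_three, neg_mul, Complex.neg_im, Complex.normSq_neg,
        Complex.I_mul_im, map_mul, Complex.normSq_I, one_mul]
      linarith
  · refine ⟨1, Or.inl ?_⟩
    refine o2_uniq hz (by simpa using hn) ha hb ?_ ?_
    · simp only [pow_one, Complex.I_mul_re, map_mul, Complex.normSq_I, one_mul]
      linarith
    · simp only [pow_one, Complex.I_mul_im, map_mul, Complex.normSq_I, one_mul]
      linarith
  · refine ⟨3, Or.inr ?_⟩
    refine o2_uniq hz (by simpa using hn) ha hb ?_ ?_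
    · simp only [Complex.I_pow_three, neg_mul, Complex.neg_re, Complex.normSq_neg,
        Complex.I_mul_re, map_mul, Complex.normSq_I, one_mul, Complex.conj_im,
        Complex.normSq_conj]
      linarith
    · simp only [Complex.I_pow_three, neg_mul, Complex.neg_im, Complex.normSq_neg,
        Complex.I_mul_im, map_mul, Complex.normSq_I, one_mul, Complex.conj_re,
        Complex.normSq_conj]
      linarith

lemma IsCorner.I_mul {ζ : ℂ} (h : IsCorner A ζ) : IsCorner A (Complex.I * ζ) := by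
  obtain ⟨hζ, n, hn, m, hm, hne, h1, h2⟩ := h
  have key : ∀ n ∈ walls A, (-n.2.1, n.1, n.2.2) ∈ walls A := by
    intro n hn
    rcases o2_mem.1 hn with h | h | h | h | h | h | h | h <;> subst h <;>
      exact o2_mem.2 (by simp)
  have key2 : ∀ n : ℝ × ℝ × ℝ, lin (-n.2.1, n.1, n.2.2) (Complex.I * ζ) = lin n ζ := by
    intro n
    simp only [lin, Complex.I_mul_re, Complex.I_mul_im, map_mul, Complex.normSq_I]
    ring
  refine ⟨I_mul_mem_octC.2 hζ, _, key n hn, _, key m hm, ?_, ?_, ?_⟩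
  · intro he
    apply hne
    simp only [Prod.mk.injEq, neg_inj] at he
    ext
    · exact he.2.1
    · exact he.1
    · exact he.2.2
  · rw [key2, h1]
  · rw [key2, h2]

lemma IsCorner.conj {ζ : ℂ} (h : IsCorner A ζ) : IsCorner A (conj ζ) := by
  obtain ⟨hζ, n, hn, m, hm, hne, h1, h2⟩ := h
  have key : ∀ n ∈ walls A, (n.1, -n.2.1, n.2.2) ∈ walls A := by
    intro n hn
    rcases o2_mem.1 hn with h | h | h | h | h | h | h | h <;> subst h <;>
      exact o2_mem.2 (by simp)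
  have key2 : ∀ n : ℝ × ℝ × ℝ, lin (n.1, -n.2.1, n.2.2) ((starRingEnd ℂ) ζ) = lin n ζ := by
    intro n
    simp only [lin, Complex.conj_re, Complex.conj_im, Complex.normSq_conj]
    ring
  refine ⟨conj_mem_octC.2 hζ, _, key n hn, _, key m hm, ?_, ?_, ?_⟩
  · intro he
    apply hne
    simp only [Prod.mk.injEq, neg_inj] at he
    ext
    · exact he.1
    · exact he.2.1
    · exact he.2.2
  · rw [key2, h1]
  · rw [key2, h2]

end Pool.Agent.Lib.MP_b9289b_nt
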