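import Pool.Agent.Lib.MP_b9289b_nt.Mg.G013

/-! (K05) The orbifold function; the theorem of part U. -/

open UpperHalfPlane Metric Set Filter Topology MatrixGroups
open scoped ComplexConjugate

noncomputable section

namespace Pool.Agent.Lib.MP_b9289b_nt

variable {A : ℝ} {f : ℂ → ℂ} {ψ : ℍ → ℂ}

/-- PROOF: `ht`: `one_lt_tval`, `sval_pos`, `sval_lt`. `ram`, `rot`: move `z` to `y = γ • z ∈ closure (oct A)` by `IsPsi.to_closure`; `Mer.ord z (κ - cst c) = Mer.ord z (actS γ (κ - cst c)) = Mer.ord (γ • z) (κ - cst c)` (`Mer.ord_actS`, `Mer.actS_cst`); then `IsPsi.kinds`, resp. `IsPsi.rot_closure` for `y`, and conjugate the rotation: `γ⁻¹ * ρ * γ`.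
`cocompact`: `isCompact_closure_oct`, `IsPsi.to_closure`. `exists_r`: `rotM (π/2)`, `IsPsi.kap_rot`. `exists_c`: `J * rotM (π/2)` has negative determinant and fixes `κ` (`Mer.act_mul`, `kap_J`, `kap_rot`). -/
theorem IsPsi.isOrb (h : IsPsi A f ψ) : IsOrb (tval (sval A ψ)) (kap h.mer) := by
  have hord : ∀ (z : ℍ) (γ : SL(2, ℝ)), Mer.actS γ (kap h.mer) = kap h.mer →
      Mer.ord z (kap h.mer) = Mer.ord (γ • z) (kap h.mer) ∧
      ∀ c, Mer.ord z (kap h.mer - Mer.cst c) = Mer.ord (γ • z) (kap h.mer - Mer.cst c) := by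
    intro z γ hγ
    refine ⟨?_, fun c => ?_⟩
    · rw [← Mer.ord_actS, hγ]
    · rw [← Mer.ord_actS, map_sub, hγ, Mer.actS_cst]
  refine ⟨one_lt_tval h.sval_pos h.sval_lt, ?_, ?_, ?_, ?_, ?_⟩
  · intro z
    obtain ⟨γ, hγ, hz⟩ := h.to_closure z
    obtain ⟨h1, h2⟩ := hord z γ hγ
    rcases h.kinds hz with h3 | h3 | h3 | h3
    · left
      rw [h1]
      exact h3.2
    · right; left
      obtain ⟨c, hc, h4⟩ := h3.2
      exact ⟨c, hc, (h2 c).trans h4⟩
    · right; left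
      obtain ⟨c, hc, h4⟩ := h3.2.2
      exact ⟨c, hc, (h2 c).trans h4⟩
    · right; right
      obtain ⟨c, hc, h4⟩ := h3
      exact ⟨c, hc, (h2 c).trans h4⟩
  · intro z hz
    obtain ⟨γ, hγ, hzc⟩ := h.to_closure z
    obtain ⟨h1, h2⟩ := hord z γ hγ
    have h3 : Mer.ord (γ • z) (kap h.mer) = -2 ∨
        ∃ c ∈ specK (tval (sval A ψ)), Mer.ord (γ • z) (kap h.mer - Mer.cst c) = 2 := by
      rcases hz with h4 | ⟨c, hc, h4⟩
      · left
        rw [← h1]
        exact h4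
      · right
        exact ⟨c, hc, (h2 c).symm.trans h4⟩
    obtain ⟨ρ, hρ, hfix, hne1, hne2⟩ := h.rot_closure hzc h3
    refine ⟨γ⁻¹ * ρ * γ, ?_, ?_, ?_, ?_⟩
    · have h5 : Mer.actS γ⁻¹ (kap h.mer) = kap h.mer := by
        have h6 := Mer.actS_mul γ γ⁻¹ (kap h.mer)
        rw [mul_inv_cancel, Mer.actS_one, hγ] at h6
        exact h6.symm
      rw [Mer.actS_mul, Mer.actS_mul, h5, hρ, hγ]
    · rw [mul_smul, mul_smul, hfix, inv_smul_smul]
    · intro h5
      apply hne1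
      have h6 : ρ = γ * (γ⁻¹ * ρ * γ) * γ⁻¹ := by group
      rw [h6, h5]
      group
    · intro h5
      apply hne2
      have h6 : ρ = γ * (γ⁻¹ * ρ * γ) * γ⁻¹ := by group
      rw [h6, h5, mul_neg, mul_one, neg_mul, mul_inv_cancel]
  · refine ⟨closure (oct A), isCompact_closure_oct h.ok, fun z => ?_⟩
    obtain ⟨γ, hγ, hz⟩ := h.to_closure z
    refine ⟨γ, ?_, hz⟩
    intro F hF
    rw [Set.mem_singleton_iff] at hF
    rw [hF]
    exact hγ
  · exact ⟨rotM (Real.pi / 2), h.kap_rot⟩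
  · refine ⟨J * (rotM (Real.pi / 2) : GL (Fin 2) ℝ), ?_, ?_⟩
    · rw [map_mul, Units.val_mul]
      simp
    · rw [Mer.act_mul, h.kap_J, map_neg]
      have h1 := h.kap_rot
      rw [Mer.actS_def] at h1
      rw [h1, neg_neg]

/-- PROOF: for every `A` in the interval `(1/√2, 1)` (then `OkA A`) choose `f, ψ` by `exists_isPsi`; `A ↦ sval A ψ_A` is injective (`Ext.strictAnti` with `IsPsi.ext`), with values in `(0,1)`; `tval` is injective there (`tval_injOn`). So the set contains the image of an uncountable set under an injective map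
(`Set.Countable.preimage_of_injOn` or `Set.MapsTo.countable_of_injOn`, an interval is not countable: `Cardinal.mk_Ioo_real`, `Set.Countable`...). -/
theorem partU : ¬ {t : ℝ | ∃ κ : Mer, IsOrb t κ}.Countable := by
  intro hcount
  have hok : ∀ A ∈ Ioo (3 / 4 : ℝ) 1, OkA A := by
    rintro A ⟨h1, h2⟩
    exact ⟨by linarith, h2, by nlinarith⟩
  have hex : ∀ A ∈ Ioo (3 / 4 : ℝ) 1, ∃ (f : ℂ → ℂ) (ψ : ℍ → ℂ), IsPsi A f ψ :=
    fun A hA => exists_isPsi (hok A hA)
  choose! F Ψ hΨ using hex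
  have hanti : ∀ A ∈ Ioo (3 / 4 : ℝ) 1, ∀ A' ∈ Ioo (3 / 4 : ℝ) 1, A < A' →
      sval A' (Ψ A') < sval A (Ψ A) := by
    intro A hA A' hA' hlt
    exact Ext.strictAnti (hok A hA) (hok A' hA') hlt (hΨ A hA).ext (hΨ A' hA').ext
  have hmaps : MapsTo (fun A => tval (sval A (Ψ A))) (Ioo (3 / 4 : ℝ) 1)
      {t : ℝ | ∃ κ : Mer, IsOrb t κ} := by
    intro A hA
    exact ⟨kap (hΨ A hA).mer, (hΨ A hA).isOrb⟩
  have hinj : InjOn (fun A => tval (sval A (Ψ A))) (Ioo (3 / 4 : ℝ) 1) := by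
    intro A hA A' hA' he
    have h1 : sval A (Ψ A) = sval A' (Ψ A') :=
      tval_injOn (hΨ A hA).sval_lt (hΨ A' hA').sval_lt he
    rcases lt_trichotomy A A' with h2 | h2 | h2
    · exact absurd h1 (hanti A hA A' hA' h2).ne'
    · exact h2
    · exact absurd h1 (hanti A' hA' A hA h2).ne
  have h3 := hmaps.countable_of_injOn hinj hcount
  rw [Cardinal.Real.Ioo_countable_iff] at h3
  norm_num at h3

end Pool.Agent.Lib.MP_b9289b_nt
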